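import Mathlib

/-!
# Small determinants
-/

set_option autoImplicit false

namespace MZG.TH

open Finset Matrix
open scoped Nat

/-- averaging over the permutations of the first block -/
theorem det_block_bound {X J : Type} [Fintype X] [DecidableEq X] [Fintype J] [DecidableEq J]
    (N : Matrix (X ⊕ J) (X ⊕ J) ℝ) (Δ E : ℝ)
    (h1 : ∀ f : X → X ⊕ J, |(Matrix.of fun x' x => N (f x') (Sum.inl x)).det| ≤ Δ)
    (h2 : ∀ z j, |N z (Sum.inr j)| ≤ E) :
    ((Fintype.card X)! : ℝ) * |N.det| ≤ ((Fintype.card (X ⊕ J))! : ℝ) * (Δ * E ^ Fintype.card J) := by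
  have hΔ : 0 ≤ Δ := (abs_nonneg _).trans (h1 Sum.inl)
  -- the product attached to a permutation
  have hdet : N.det = ∑ σ : Equiv.Perm (X ⊕ J), ((Equiv.Perm.sign σ : ℤ) : ℝ) *
      ((∏ x, N (σ (Sum.inl x)) (Sum.inl x)) * ∏ j, N (σ (Sum.inr j)) (Sum.inr j)) := by
    rw [Matrix.det_apply']
    refine Finset.sum_congr rfl fun σ _ => ?_
    rw [Fintype.prod_sum_type]
  have hpi : ∀ π : Equiv.Perm X, N.det = ∑ σ : Equiv.Perm (X ⊕ J), ((Equiv.Perm.sign σ : ℤ) : ℝ) *
      (((Equiv.Perm.sign π : ℤ) : ℝ) * (∏ x, N (σ (Sum.inl (π x))) (Sum.inl x)) *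
        ∏ j, N (σ (Sum.inr j)) (Sum.inr j)) := by
    intro π
    rw [hdet]
    refine (Equiv.sum_comp (Equiv.mulRight (Equiv.Perm.sumCongr π (1 : Equiv.Perm J))) _).symm.trans ?_
    refine Finset.sum_congr rfl fun σ _ => ?_
    simp only [Equiv.coe_mulRight, Equiv.Perm.sign_mul, Equiv.Perm.sign_sumCongr, map_one, mul_one,
      Equiv.Perm.coe_mul, Function.comp_apply, Equiv.Perm.sumCongr_apply, Sum.map_inl, Sum.map_inr,
      Equiv.Perm.coe_one, id_eq, Units.val_mul, Int.cast_mul]
    ring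
  have hsum : ((Fintype.card X)! : ℝ) * N.det = ∑ σ : Equiv.Perm (X ⊕ J),
      ((Equiv.Perm.sign σ : ℤ) : ℝ) * ((Matrix.of fun x' x => N (σ (Sum.inl x')) (Sum.inl x)).det *
        ∏ j, N (σ (Sum.inr j)) (Sum.inr j)) := by
    have hc : ((Fintype.card X)! : ℝ) * N.det = ∑ _π : Equiv.Perm X, N.det := by
      rw [Finset.sum_const, Finset.card_univ, Fintype.card_perm, nsmul_eq_mul]
    rw [hc, Finset.sum_congr rfl (fun π _ => hpi π), Finset.sum_comm]
    refine Finset.sum_congr rfl fun σ _ => ?_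
    rw [← Finset.mul_sum, Matrix.det_apply', Finset.sum_mul]
    rfl
  have habs : ∀ σ : Equiv.Perm (X ⊕ J), |((Equiv.Perm.sign σ : ℤ) : ℝ) *
      ((Matrix.of fun x' x => N (σ (Sum.inl x')) (Sum.inl x)).det *
        ∏ j, N (σ (Sum.inr j)) (Sum.inr j))| ≤ Δ * E ^ Fintype.card J := by
    intro σ
    have hs : |((Equiv.Perm.sign σ : ℤ) : ℝ)| = 1 := by
      rcases Int.units_eq_one_or (Equiv.Perm.sign σ) with h | h <;> rw [h] <;> simp
    rw [abs_mul, hs, one_mul, abs_mul]
    refine mul_le_mul (h1 _) ?_ (abs_nonneg _) hΔ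
    rw [Finset.abs_prod]
    calc ∏ j, |N (σ (Sum.inr j)) (Sum.inr j)| ≤ ∏ _j : J, E :=
          Finset.prod_le_prod (fun _ _ => abs_nonneg _) (fun j _ => h2 _ _)
      _ = E ^ Fintype.card J := by rw [Finset.prod_const, Finset.card_univ]
  calc ((Fintype.card X)! : ℝ) * |N.det| = |((Fintype.card X)! : ℝ) * N.det| := by
        rw [abs_mul, Nat.abs_cast]
    _ ≤ ∑ _σ : Equiv.Perm (X ⊕ J), Δ * E ^ Fintype.card J := by
        rw [hsum]
        exact (Finset.abs_sum_le_sum_abs _ _).trans (Finset.sum_le_sum fun σ _ => habs σ)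
    _ = ((Fintype.card (X ⊕ J))! : ℝ) * (Δ * E ^ Fintype.card J) := by
        rw [Finset.sum_const, Finset.card_univ, Fintype.card_perm, nsmul_eq_mul]

/-- a finite set of `m` natural numbers has sum at least `m(m-1)/2` -/
theorem card_sq_le (A : Finset ℕ) : A.card * A.card ≤ 2 * (∑ a ∈ A, a) + A.card := by
  induction A using Finset.induction_on_max with
  | empty => simp
  | insert a s hs ih =>
    have ha : a ∉ s := fun h => lt_irrefl _ (hs a h)
    rw [Finset.card_insert_of_notMem ha, Finset.sum_insert ha]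
    have hc : s.card ≤ a := by
      have h1 : s ⊆ Finset.range a := fun x hx => Finset.mem_range.mpr (hs x hx)
      have h2 := Finset.card_le_card h1
      rwa [Finset.card_range] at h2
    nlinarith

theorem inj_sum {X : Type} (S : Finset X) (f : X → ℕ) (hf : Set.InjOn f S) :
    S.card * S.card ≤ 2 * (∑ x ∈ S, f x) + S.card := by
  classical
  have h := card_sq_le (S.image f)
  rw [Finset.card_image_of_injOn hf, Finset.sum_image hf] at h
  exact h

/-- Fact C -/
theorem min_sum {X : Type} [Fintype X] (K L : X → ℕ) (hK : Function.Injective K)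
    (hL : Function.Injective L) :
    Fintype.card X * Fintype.card X ≤ 4 * (∑ x, min (K x) (L x)) + 2 * Fintype.card X := by
  classical
  set S1 := Finset.univ.filter fun x => K x ≤ L x with hS1
  set S2 := Finset.univ.filter fun x => ¬ K x ≤ L x with hS2
  have h1 := inj_sum S1 K hK.injOn
  have h2 := inj_sum S2 L hL.injOn
  have hc : S1.card + S2.card = Fintype.card X := by
    rw [hS1, hS2, Finset.card_filter_add_card_filter_not, Finset.card_univ]
  have hs : ∑ x, min (K x) (L x) = ∑ x ∈ S1, K x + ∑ x ∈ S2, L x := by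
    rw [hS1, hS2, ← Finset.sum_filter_add_sum_filter_not Finset.univ (fun x => K x ≤ L x)]
    congr 1
    · refine Finset.sum_congr rfl fun x hx => ?_
      exact min_eq_left (Finset.mem_filter.mp hx).2
    · refine Finset.sum_congr rfl fun x hx => ?_
      exact min_eq_right (by have := (Finset.mem_filter.mp hx).2; omega)
  rw [hs, ← hc]
  nlinarith [sq_nonneg ((S1.card : ℤ) - S2.card), mul_self_nonneg ((S1.card : ℤ) - S2.card)]

end MZG.TH
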