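import Pool.Agent.Lib.MP_e54452_nt.TH.DetA

/-!
# Small minors, truncated version and limit
-/

set_option autoImplicit false

namespace MZG.TH

open Finset Matrix Filter
open scoped Nat Topology

/-- the decay factor -/
noncomputable def dec (be : ℝ) (m : ℕ) : ℝ :=
  Real.exp (-(Real.log be / 4 * ((m : ℝ) * m - 2 * m)))

theorem dec_pos (be : ℝ) (m : ℕ) : 0 < dec be m := Real.exp_pos _

theorem prod_bt_le {X : Type} [Fintype X] [DecidableEq X] (be : ℝ) (hbe : 1 ≤ be) (b : ℕ → ℕ → ℝ) (hb : ∀ k l, 0 ≤ b k l)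
    (K L : X → ℕ) (hK : Function.Injective K) (hL : Function.Injective L) :
    ∏ x, b (K x) (L x) ≤ dec be (Fintype.card X) * ∏ x, (be ^ min (K x) (L x) * b (K x) (L x)) := by
  have h1 := min_sum K L hK hL
  rw [Finset.prod_mul_distrib, Finset.prod_pow_eq_pow_sum, ← mul_assoc]
  refine le_mul_of_one_le_left (Finset.prod_nonneg fun x _ => hb _ _) ?_
  have h2 : be ^ (∑ x, min (K x) (L x)) =
      Real.exp (Real.log be * ((∑ x, min (K x) (L x) : ℕ) : ℝ)) := by
    rw [← Real.rpow_natCast, Real.rpow_def_of_pos (by linarith)]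
  rw [h2, dec, ← Real.exp_add]
  refine Real.one_le_exp ?_
  have h3 : ((Fintype.card X : ℕ) : ℝ) * ((Fintype.card X : ℕ) : ℝ) ≤
      4 * ((∑ x, min (K x) (L x) : ℕ) : ℝ) + 2 * ((Fintype.card X : ℕ) : ℝ) := by
    exact_mod_cast h1
  have h4 : 0 ≤ Real.log be := Real.log_nonneg hbe
  nlinarith

theorem det_entry_le {X : Type} [Fintype X] [DecidableEq X] (be : ℝ) (hbe : 1 ≤ be) (b : ℕ → ℕ → ℝ) (hb : ∀ k l, 0 ≤ b k l)
    (K L : X → ℕ) :
    |(Matrix.of fun y x => b (K x) (L y)).det| ≤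
      dec be (Fintype.card X) * ∑ σ : Equiv.Perm X, ∏ x, (be ^ min (K x) (L (σ x)) * b (K x) (L (σ x))) := by
  have hnn : 0 ≤ dec be (Fintype.card X) *
      ∑ σ : Equiv.Perm X, ∏ x, (be ^ min (K x) (L (σ x)) * b (K x) (L (σ x))) :=
    mul_nonneg (dec_pos _ _).le (Finset.sum_nonneg fun σ _ => Finset.prod_nonneg fun x _ =>
      mul_nonneg (pow_nonneg (by linarith) _) (hb _ _))
  by_cases hK : Function.Injective K
  · by_cases hL : Function.Injective L
    · rw [Matrix.det_apply', Finset.mul_sum]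
      refine (Finset.abs_sum_le_sum_abs _ _).trans (Finset.sum_le_sum fun σ _ => ?_)
      have hs : |((Equiv.Perm.sign σ : ℤ) : ℝ)| = 1 := by
        rcases Int.units_eq_one_or (Equiv.Perm.sign σ) with h | h <;> rw [h] <;> simp
      rw [abs_mul, hs, one_mul]
      simp only [Matrix.of_apply]
      rw [abs_of_nonneg (Finset.prod_nonneg fun x _ => hb _ _)]
      exact prod_bt_le be hbe b hb K (fun x => L (σ x)) hK (hL.comp σ.injective)
    · rw [Function.not_injective_iff] at hL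
      obtain ⟨x, y, hxy, hne⟩ := hL
      rw [Matrix.det_zero_of_row_eq hne (by funext z; simp [hxy]), abs_zero]
      exact hnn
  · rw [Function.not_injective_iff] at hK
    obtain ⟨x, y, hxy, hne⟩ := hK
    rw [Matrix.det_zero_of_column_eq hne (by intro z; simp [hxy]), abs_zero]
    exact hnn

theorem det_expand {X : Type} [Fintype X] [DecidableEq X] (ph ps : X → ℕ → ℝ) (b : ℕ → ℕ → ℝ) (T : ℕ) :
    (Matrix.of fun x y => ∑ k : Fin T, ∑ l : Fin T, ph x k * ps y l * b k l).det =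
      ∑ K : X → Fin T, ∑ L : X → Fin T, (∏ x, ph x (K x)) * (∏ y, ps y (L y)) *
        (Matrix.of fun y x => b (K x) (L y)).det := by
  have h1 : (Matrix.of fun x y => ∑ k : Fin T, ∑ l : Fin T, ph x k * ps y l * b k l).det =
      Matrix.detRowAlternating.toMultilinearMap (fun x => ∑ k : Fin T,
        (ph x k • fun y => ∑ l : Fin T, ps y l * b k l : X → ℝ)) := by
    change Matrix.detRowAlternating _ = Matrix.detRowAlternating _
    congr 1
    funext x y
    simp only [Matrix.of_apply, Finset.sum_apply, Pi.smul_apply, smul_eq_mul, Finset.mul_sum, mul_assoc]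
  rw [h1, MultilinearMap.map_sum]
  refine Finset.sum_congr rfl fun K _ => ?_
  rw [MultilinearMap.map_smul_univ, smul_eq_mul]
  have h2 : Matrix.detRowAlternating.toMultilinearMap (fun x => (fun y => ∑ l : Fin T, ps y l * b (K x) l : X → ℝ)) =
      Matrix.detRowAlternating.toMultilinearMap (fun y => ∑ l : Fin T,
        (ps y l • fun x => b (K x) l : X → ℝ)) := by
    change Matrix.det (Matrix.of fun x y => ∑ l : Fin T, ps y l * b (K x) l) =
      Matrix.det _
    rw [← Matrix.det_transpose]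
    congr 1
    funext x y
    simp only [Matrix.transpose_apply, Matrix.of_apply, Finset.sum_apply, Pi.smul_apply, smul_eq_mul]
  rw [h2, MultilinearMap.map_sum, Finset.mul_sum]
  refine Finset.sum_congr rfl fun L _ => ?_
  rw [MultilinearMap.map_smul_univ, smul_eq_mul, mul_assoc]
  rfl

theorem det_trunc {X : Type} [Fintype X] [DecidableEq X] (be : ℝ) (hbe : 1 ≤ be)
    (ph ps : X → ℕ → ℝ) (b : ℕ → ℕ → ℝ)
    (hph : ∀ x k, 0 ≤ ph x k) (hps : ∀ x k, 0 ≤ ps x k) (hb : ∀ k l, 0 ≤ b k l) (G : ℝ) (T : ℕ)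
    (hG : ∀ x y, ∑ k : Fin T, ∑ l : Fin T, ph x k * ps y l * (be ^ min (k : ℕ) l * b k l) ≤ G) :
    |(Matrix.of fun x y => ∑ k : Fin T, ∑ l : Fin T, ph x k * ps y l * b k l).det| ≤
      dec be (Fintype.card X) * (((Fintype.card X)! : ℝ) * G ^ Fintype.card X) := by
  rw [det_expand]
  have h1 : |∑ K : X → Fin T, ∑ L : X → Fin T, (∏ x, ph x (K x)) * (∏ y, ps y (L y)) *
        (Matrix.of fun y x => b (K x) (L y)).det| ≤
      ∑ K : X → Fin T, ∑ L : X → Fin T, (∏ x, ph x (K x)) * (∏ y, ps y (L y)) *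
        (dec be (Fintype.card X) * ∑ σ : Equiv.Perm X,
          ∏ x, (be ^ min (K x : ℕ) (L (σ x)) * b (K x) (L (σ x)))) := by
    refine (Finset.abs_sum_le_sum_abs _ _).trans (Finset.sum_le_sum fun K _ => ?_)
    refine (Finset.abs_sum_le_sum_abs _ _).trans (Finset.sum_le_sum fun L _ => ?_)
    have hnn : 0 ≤ (∏ x, ph x (K x)) * (∏ y, ps y (L y)) :=
      mul_nonneg (Finset.prod_nonneg fun x _ => hph _ _) (Finset.prod_nonneg fun x _ => hps _ _)
    rw [abs_mul, abs_of_nonneg hnn]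
    exact mul_le_mul_of_nonneg_left
      (det_entry_le be hbe b hb (fun x => (K x : ℕ)) (fun x => (L x : ℕ))) hnn
  refine h1.trans ?_
  have h2 : ∑ K : X → Fin T, ∑ L : X → Fin T, (∏ x, ph x (K x)) * (∏ y, ps y (L y)) *
        (dec be (Fintype.card X) * ∑ σ : Equiv.Perm X,
          ∏ x, (be ^ min (K x : ℕ) (L (σ x)) * b (K x) (L (σ x)))) =
      dec be (Fintype.card X) * ∑ σ : Equiv.Perm X, ∑ K : X → Fin T, ∑ L : X → Fin T,
        ∏ x, (ph x (K x) * ps (σ x) (L (σ x)) * (be ^ min (K x : ℕ) (L (σ x)) * b (K x) (L (σ x)))) := by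
    simp only [Finset.mul_sum]
    rw [Finset.sum_comm' (s := Finset.univ) (t := fun _ => Finset.univ) (t' := Finset.univ)
      (s' := fun _ => Finset.univ) (by simp)]
    rw [Finset.sum_comm]
    conv_rhs => rw [Finset.sum_comm]
    refine Finset.sum_congr rfl fun K _ => ?_
    conv_rhs => rw [Finset.sum_comm]
    refine Finset.sum_congr rfl fun L _ => ?_
    refine Finset.sum_congr rfl fun σ _ => ?_
    have h6 : ∏ x, (ph x (K x) * ps (σ x) (L (σ x)) *
        (be ^ min (K x : ℕ) (L (σ x)) * b (K x) (L (σ x)))) =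
        ((∏ x, ph x (K x)) * ∏ x, ps x (L x)) *
          ∏ x, (be ^ min (K x : ℕ) (L (σ x)) * b (K x) (L (σ x))) := by
      rw [← Equiv.prod_comp σ (fun y => ps y (L y)), ← Finset.prod_mul_distrib,
        ← Finset.prod_mul_distrib]
    rw [h6]
    ring
  rw [h2]
  refine mul_le_mul_of_nonneg_left ?_ (dec_pos _ _).le
  have h3 : ∀ σ : Equiv.Perm X, ∑ K : X → Fin T, ∑ L : X → Fin T,
        ∏ x, (ph x (K x) * ps (σ x) (L (σ x)) * (be ^ min (K x : ℕ) (L (σ x)) * b (K x) (L (σ x)))) ≤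
      G ^ Fintype.card X := by
    intro σ
    have h4 : ∀ K : X → Fin T, ∑ L : X → Fin T,
        ∏ x, (ph x (K x) * ps (σ x) (L (σ x)) * (be ^ min (K x : ℕ) (L (σ x)) * b (K x) (L (σ x)))) =
        ∑ L : X → Fin T,
        ∏ x, (ph x (K x) * ps (σ x) (L x) * (be ^ min (K x : ℕ) (L x) * b (K x) (L x))) := by
      intro K
      exact Equiv.sum_comp (Equiv.arrowCongr σ.symm (Equiv.refl (Fin T)))
        (fun L : X → Fin T => ∏ x, (ph x (K x) * ps (σ x) (L x) * (be ^ min (K x : ℕ) (L x) * b (K x) (L x))))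
    rw [Finset.sum_congr rfl (fun K _ => h4 K)]
    have h5 : ∑ K : X → Fin T, ∑ L : X → Fin T,
        ∏ x, (ph x (K x) * ps (σ x) (L x) * (be ^ min (K x : ℕ) (L x) * b (K x) (L x))) =
        ∏ x, ∑ p : Fin T × Fin T, (ph x p.1 * ps (σ x) p.2 * (be ^ min (p.1 : ℕ) p.2 * b p.1 p.2)) := by
      rw [Finset.prod_univ_sum, Fintype.piFinset_univ, ← Fintype.sum_prod_type']
      exact (Equiv.sum_comp (Equiv.arrowProdEquivProdArrow X (fun _ => Fin T) (fun _ => Fin T))
        (fun q => ∏ x, (ph x (q.1 x) * ps (σ x) (q.2 x) * (be ^ min (q.1 x : ℕ) (q.2 x) *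
          b (q.1 x) (q.2 x))))).symm
    rw [h5]
    calc ∏ x, ∑ p : Fin T × Fin T, (ph x p.1 * ps (σ x) p.2 * (be ^ min (p.1 : ℕ) p.2 * b p.1 p.2))
        ≤ ∏ _x : X, G := by
          refine Finset.prod_le_prod (fun x _ => ?_) (fun x _ => ?_)
          · exact Finset.sum_nonneg fun p _ => mul_nonneg (mul_nonneg (hph _ _) (hps _ _))
              (mul_nonneg (pow_nonneg (by linarith) _) (hb _ _))
          · rw [Fintype.sum_prod_type]
            exact hG x (σ x)
      _ = G ^ Fintype.card X := by rw [Finset.prod_const, Finset.card_univ]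
  calc ∑ σ : Equiv.Perm X, ∑ K : X → Fin T, ∑ L : X → Fin T,
        ∏ x, (ph x (K x) * ps (σ x) (L (σ x)) * (be ^ min (K x : ℕ) (L (σ x)) * b (K x) (L (σ x))))
      ≤ ∑ _σ : Equiv.Perm X, G ^ Fintype.card X := Finset.sum_le_sum fun σ _ => h3 σ
    _ = ((Fintype.card X)! : ℝ) * G ^ Fintype.card X := by
        rw [Finset.sum_const, Finset.card_univ, Fintype.card_perm, nsmul_eq_mul]

/-- Lemma D -/
theorem small_minor {X : Type} [Fintype X] [DecidableEq X] (be : ℝ) (hbe : 1 ≤ be)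
    (ph ps : X → ℕ → ℝ) (b : ℕ → ℕ → ℝ)
    (hph : ∀ x k, 0 ≤ ph x k) (hps : ∀ x k, 0 ≤ ps x k) (hb : ∀ k l, 0 ≤ b k l) (G : ℝ)
    (hG : ∀ x y T, ∑ k ∈ range T, ∑ l ∈ range T, ph x k * ps y l * (be ^ min k l * b k l) ≤ G)
    (R : Matrix X X ℝ) (hR : ∀ x y, Tendsto (fun T => ∑ k ∈ range T, ∑ l ∈ range T,
      ph x k * ps y l * b k l) atTop (𝓝 (R x y))) :
    |R.det| ≤ dec be (Fintype.card X) * (((Fintype.card X)! : ℝ) * G ^ Fintype.card X) := by
  have h1 : Tendsto (fun T => (Matrix.of fun x y => ∑ k ∈ range T, ∑ l ∈ range T,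
      ph x k * ps y l * b k l).det) atTop (𝓝 R.det) := by
    have hc : Continuous fun M : Matrix X X ℝ => M.det := continuous_id.matrix_det
    refine (hc.tendsto R).comp ?_
    refine tendsto_pi_nhds.mpr fun x => tendsto_pi_nhds.mpr fun y => ?_
    exact hR x y
  have h2 := h1.abs
  refine le_of_tendsto h2 (Eventually.of_forall fun T => ?_)
  have e : ∀ (F : ℕ → ℕ → ℝ), ∑ k ∈ range T, ∑ l ∈ range T, F k l = ∑ k : Fin T, ∑ l : Fin T, F k l := by
    intro F
    rw [Finset.sum_range]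
    exact Finset.sum_congr rfl fun k _ => Finset.sum_range _
  have h3 := det_trunc be hbe ph ps b hph hps hb G T (fun x y => by
    rw [← e (fun k l => ph x k * ps y l * (be ^ min k l * b k l))]
    exact hG x y T)
  have h4 : (Matrix.of fun x y => ∑ k ∈ range T, ∑ l ∈ range T, ph x k * ps y l * b k l) =
      (Matrix.of fun x y => ∑ k : Fin T, ∑ l : Fin T, ph x k * ps y l * b k l) := by
    funext x y
    exact e (fun k l => ph x k * ps y l * b k l)
  rw [h4]
  exact h3

end MZG.TH
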