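import Pool.Agent.Lib.MP_e54452_nt.TH.DetB
import Pool.Agent.Lib.MP_e54452_nt.DG.SZb

/-!
# The weights of the double series
-/

set_option autoImplicit false

namespace MZG.TH

open Finset Filter
open scoped Nat Topology

/-- `i! j! / (i+j+1)!` -/
noncomputable def br (i j : ℕ) : ℝ := (bt i j).toReal

theorem br_eq (i j : ℕ) : br i j = (i ! * j ! : ℝ) / ((i + j + 1)! : ℝ) := by
  unfold br bt
  rw [ENNReal.toReal_ofReal (by positivity)]

theorem br_nonneg (i j : ℕ) : 0 ≤ br i j := ENNReal.toReal_nonneg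

theorem br_symm (i j : ℕ) : br i j = br j i := by
  unfold br
  rw [bt_symm]

theorem br_step (i j : ℕ) : br (i + 1) j * ((i : ℝ) + j + 2) = br i j * ((i : ℝ) + 1) := by
  rw [br_eq, br_eq]
  have h1 : (i + 1 + j + 1)! = (i + j + 2) * (i + j + 1)! := by
    have : i + 1 + j + 1 = (i + j + 1) + 1 := by omega
    rw [this, Nat.factorial_succ]
  rw [h1, Nat.factorial_succ]
  push_cast
  have h2 : ((i + j + 1)! : ℝ) ≠ 0 := by exact_mod_cast Nat.factorial_ne_zero _
  have h3 : (i : ℝ) + j + 2 ≠ 0 := by positivity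
  field_simp

/-- diagonal decay -/
theorem br_diag (k m t : ℕ) : br (m + t) (k + t) ≤ (1 / 4) ^ t * br m k := by
  induction t with
  | zero => simp
  | succ t ih =>
    have h1 := br_step (m + t) (k + t + 1)
    have h2 := br_step (k + t) (m + t)
    have e : br (k + t + 1) (m + t) = br (m + t) (k + t + 1) := br_symm _ _
    have e' : br (k + t) (m + t) = br (m + t) (k + t) := br_symm _ _
    rw [e, e'] at h2
    push_cast at h1 h2
    have ha : (0 : ℝ) ≤ (m : ℝ) + t := by positivity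
    have hb : (0 : ℝ) ≤ (k : ℝ) + t := by positivity
    have h0 := br_nonneg (m + t) (k + t)
    have hx := br_nonneg (m + t) (k + t + 1)
    have hy := br_nonneg (m + t + 1) (k + t + 1)
    have h3 : br (m + t + 1) (k + t + 1) ≤ 1 / 4 * br (m + t) (k + t) := by
      set a : ℝ := (m : ℝ) + t with hadef
      set b : ℝ := (k : ℝ) + t with hbdef
      have h1' : br (m + t + 1) (k + t + 1) * (a + b + 3) = br (m + t) (k + t + 1) * (a + 1) := by
        rw [← h1]; ring
      have h2' : br (m + t) (k + t + 1) * (a + b + 2) = br (m + t) (k + t) * (b + 1) := by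
        rw [← h2]; ring
      have h4 : br (m + t + 1) (k + t + 1) * ((a + b + 3) * (a + b + 2)) =
          br (m + t) (k + t) * ((a + 1) * (b + 1)) := by
        calc _ = (br (m + t + 1) (k + t + 1) * (a + b + 3)) * (a + b + 2) := by ring
          _ = (br (m + t) (k + t + 1) * (a + b + 2)) * (a + 1) := by rw [h1']; ring
          _ = _ := by rw [h2']; ring
      have h5 : (a + 1) * (b + 1) ≤ 1 / 4 * ((a + b + 3) * (a + b + 2)) := by
        nlinarith [sq_nonneg (a - b)]
      have h6 : (0 : ℝ) < (a + b + 3) * (a + b + 2) := by positivity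
      refine le_of_mul_le_mul_right ?_ h6
      rw [h4]
      calc br (m + t) (k + t) * ((a + 1) * (b + 1))
          ≤ br (m + t) (k + t) * (1 / 4 * ((a + b + 3) * (a + b + 2))) :=
            mul_le_mul_of_nonneg_left h5 h0
        _ = 1 / 4 * br (m + t) (k + t) * ((a + b + 3) * (a + b + 2)) := by ring
    calc br (m + (t + 1)) (k + (t + 1)) ≤ 1 / 4 * br (m + t) (k + t) := h3
      _ ≤ 1 / 4 * ((1 / 4) ^ t * br m k) := by linarith
      _ = (1 / 4) ^ (t + 1) * br m k := by rw [pow_succ]; ring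

theorem br_zero (l : ℕ) : br l 0 = 1 / ((l : ℝ) + 1) := by
  rw [br_eq]
  have : (l + 0 + 1)! = (l + 1) * l ! := by rw [add_zero, Nat.factorial_succ]
  rw [this]
  push_cast
  have h2 : (l ! : ℝ) ≠ 0 := by exact_mod_cast Nat.factorial_ne_zero _
  have h3 : (l : ℝ) + 1 ≠ 0 := by positivity
  field_simp
  simp

theorem geom_le (r : ℝ) (hr : 0 ≤ r) (hr1 : r ≤ 1) (T : ℕ) :
    (1 - r) ^ 2 * ∑ k ∈ range T, r ^ k * ((k : ℝ) + 1) ≤ 1 := by
  have h : ∀ T : ℕ, (1 - r) ^ 2 * ∑ k ∈ range T, r ^ k * ((k : ℝ) + 1) =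
      1 - r ^ T * (1 + T * (1 - r)) := by
    intro T
    induction T with
    | zero => simp
    | succ T ih =>
      rw [Finset.sum_range_succ, mul_add, ih, pow_succ]
      push_cast
      ring
  rw [h]
  have h1 : 0 ≤ r ^ T * (1 + T * (1 - r)) := by
    have : 0 ≤ 1 - r := by linarith
    positivity
  linarith

/-- the shifted sum -/
theorem shift_sum_le (w : List Bool) (hw : good w = true) (i T : ℕ) :
    ∑ l ∈ range T, ((cc w i l : ℚ) : ℝ) * br (l - i) 0 ≤ sx 0 0 w [] := by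
  have hc : ∀ k, (0 : ℝ) ≤ ((c w k : ℚ) : ℝ) := fun k => by exact_mod_cast c_nonneg w k
  have hmain : ∀ S : ℕ, ∑ l ∈ range S, ((c w l : ℚ) : ℝ) * br l 0 ≤ sx 0 0 w [] := by
    intro S
    have h := sx_hasSum 0 0 w [] hw rfl
    have hnn : ∀ p : ℕ × ℕ, 0 ≤ ((cc w 0 p.1 : ℚ) : ℝ) * ((cc [] 0 p.2 : ℚ) : ℝ) *
        (bt p.1 p.2).toReal := fun p =>
      mul_nonneg (mul_nonneg (SZb_cc_nonneg _ _ _) (SZb_cc_nonneg _ _ _)) ENNReal.toReal_nonneg
    have h1 := sum_le_hasSum (range S ×ˢ {0}) (fun p _ => hnn p) h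
    refine le_trans (le_of_eq ?_) h1
    rw [Finset.sum_product]
    refine Finset.sum_congr rfl fun l _ => ?_
    rw [Finset.sum_singleton]
    have e1 : cc w 0 l = c w l := by
      have := SZb_cc_add w 0 l
      simpa using this
    have e2 : cc [] 0 0 = 1 := by simp [cc, c]
    rw [e1, e2]
    simp [br]
  rcases Nat.lt_or_ge T i with hT | hT
  · have h0 : ∑ k ∈ range T, ((cc w i k : ℚ) : ℝ) * br (k - i) 0 = 0 := by
      refine Finset.sum_eq_zero fun k hk => ?_
      rw [SZb_cc_lt w i k (by have := Finset.mem_range.mp hk; omega)]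
      simp
    rw [h0]
    exact (hmain 0).trans' (by simp)
  · obtain ⟨S, rfl⟩ := Nat.exists_eq_add_of_le hT
    rw [Finset.sum_range_add]
    have h0 : ∑ k ∈ range i, ((cc w i k : ℚ) : ℝ) * br (k - i) 0 = 0 := by
      refine Finset.sum_eq_zero fun k hk => ?_
      rw [SZb_cc_lt w i k (Finset.mem_range.mp hk)]
      simp
    rw [h0, zero_add]
    refine le_trans (le_of_eq ?_) (hmain S)
    refine Finset.sum_congr rfl fun x _ => ?_
    rw [add_comm i x, SZb_cc_add, Nat.add_sub_cancel]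

theorem cc_le_one (w : List Bool) (i k : ℕ) : ((cc w i k : ℚ) : ℝ) ≤ 1 := by
  unfold cc
  split_ifs
  · exact_mod_cast c_le_one w _
  · simp

theorem term_le (be : ℝ) (hbe : 0 ≤ be) (u : List Bool) (i k l : ℕ) (h : k ≤ l) :
    ((cc u i l : ℚ) : ℝ) * (be ^ k * br l k) ≤
      (be / 4) ^ k * ((k : ℝ) + 1) * (((cc u i l : ℚ) : ℝ) * br (l - i) 0) := by
  rcases Nat.lt_or_ge l i with hli | hli
  · rw [SZb_cc_lt u i l hli]
    simp
  · have hc := SZb_cc_nonneg u i l
    obtain ⟨d, rfl⟩ := Nat.exists_eq_add_of_le h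
    have h1 := br_diag 0 d k
    rw [zero_add] at h1
    have h2 : br d 0 ≤ ((k : ℝ) + 1) * br (k + d - i) 0 := by
      rw [br_zero, br_zero, mul_one_div, div_le_div_iff₀ (by positivity) (by positivity)]
      have hk : (0 : ℝ) ≤ k := Nat.cast_nonneg k
      have hd : (0 : ℝ) ≤ d := Nat.cast_nonneg d
      have h3 : ((k + d - i : ℕ) : ℝ) ≤ k + d := by
        have : k + d - i ≤ k + d := Nat.sub_le _ _
        exact_mod_cast this
      nlinarith
    have h4 : be ^ k * br (k + d) k ≤ (be / 4) ^ k * (((k : ℝ) + 1) * br (k + d - i) 0) := by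
      rw [add_comm k d] at h2 ⊢
      calc be ^ k * br (d + k) k ≤ be ^ k * ((1 / 4) ^ k * br d 0) :=
            mul_le_mul_of_nonneg_left h1 (by positivity)
        _ = (be / 4) ^ k * br d 0 := by
            rw [← mul_assoc, ← mul_pow]
            ring
        _ ≤ _ := mul_le_mul_of_nonneg_left h2 (by positivity)
    calc ((cc u i (k + d) : ℚ) : ℝ) * (be ^ k * br (k + d) k)
        ≤ ((cc u i (k + d) : ℚ) : ℝ) * ((be / 4) ^ k * (((k : ℝ) + 1) * br (k + d - i) 0)) :=
          mul_le_mul_of_nonneg_left h4 hc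
      _ = _ := by ring

/-- Fact G -/
theorem G_bound (be : ℝ) (hbe : 0 ≤ be) (h4 : be < 4) (u v : List Bool) (hu : good u = true)
    (hv : good v = true) (i j T : ℕ) :
    (1 - be / 4) ^ 2 * ∑ k ∈ range T, ∑ l ∈ range T, ((cc v j k : ℚ) : ℝ) * ((cc u i l : ℚ) : ℝ) *
      (be ^ min k l * br l k) ≤ sx 0 0 u [] + sx 0 0 v [] := by
  have hr0 : 0 ≤ be / 4 := by positivity
  have hg := geom_le (be / 4) hr0 (by linarith) T
  have hsu := shift_sum_le u hu i T
  have hsv := shift_sum_le v hv j T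
  have hsu0 : 0 ≤ ∑ l ∈ range T, ((cc u i l : ℚ) : ℝ) * br (l - i) 0 :=
    Finset.sum_nonneg fun l _ => mul_nonneg (SZb_cc_nonneg _ _ _) (br_nonneg _ _)
  have hsv0 : 0 ≤ ∑ l ∈ range T, ((cc v j l : ℚ) : ℝ) * br (l - j) 0 :=
    Finset.sum_nonneg fun l _ => mul_nonneg (SZb_cc_nonneg _ _ _) (br_nonneg _ _)
  have hpt : ∀ k l : ℕ, ((cc v j k : ℚ) : ℝ) * ((cc u i l : ℚ) : ℝ) * (be ^ min k l * br l k) ≤
      ((be / 4) ^ k * ((k : ℝ) + 1)) * (((cc u i l : ℚ) : ℝ) * br (l - i) 0) +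
      (((cc v j k : ℚ) : ℝ) * br (k - j) 0) * ((be / 4) ^ l * ((l : ℝ) + 1)) := by
    intro k l
    have hv0 := SZb_cc_nonneg v j k
    have hu0 := SZb_cc_nonneg u i l
    have hv1 := cc_le_one v j k
    have hu1 := cc_le_one u i l
    have hA : 0 ≤ ((be / 4) ^ k * ((k : ℝ) + 1)) * (((cc u i l : ℚ) : ℝ) * br (l - i) 0) :=
      mul_nonneg (by positivity) (mul_nonneg hu0 (br_nonneg _ _))
    have hB : 0 ≤ (((cc v j k : ℚ) : ℝ) * br (k - j) 0) * ((be / 4) ^ l * ((l : ℝ) + 1)) :=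
      mul_nonneg (mul_nonneg hv0 (br_nonneg _ _)) (by positivity)
    rcases le_total k l with h | h
    · rw [min_eq_left h]
      have h1 := term_le be hbe u i k l h
      have h2 : 0 ≤ ((cc u i l : ℚ) : ℝ) * (be ^ k * br l k) :=
        mul_nonneg hu0 (mul_nonneg (by positivity) (br_nonneg _ _))
      calc ((cc v j k : ℚ) : ℝ) * ((cc u i l : ℚ) : ℝ) * (be ^ k * br l k)
          = ((cc v j k : ℚ) : ℝ) * (((cc u i l : ℚ) : ℝ) * (be ^ k * br l k)) := by ring
        _ ≤ 1 * (((cc u i l : ℚ) : ℝ) * (be ^ k * br l k)) := mul_le_mul_of_nonneg_right hv1 h2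
        _ ≤ _ := by linarith
    · rw [min_eq_right h]
      have h1 := term_le be hbe v j l k h
      rw [br_symm k l] at h1
      have h2 : 0 ≤ ((cc v j k : ℚ) : ℝ) * (be ^ l * br l k) :=
        mul_nonneg hv0 (mul_nonneg (by positivity) (br_nonneg _ _))
      calc ((cc v j k : ℚ) : ℝ) * ((cc u i l : ℚ) : ℝ) * (be ^ l * br l k)
          = ((cc u i l : ℚ) : ℝ) * (((cc v j k : ℚ) : ℝ) * (be ^ l * br l k)) := by ring
        _ ≤ 1 * (((cc v j k : ℚ) : ℝ) * (be ^ l * br l k)) := mul_le_mul_of_nonneg_right hu1 h2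
        _ ≤ (be / 4) ^ l * ((l : ℝ) + 1) * (((cc v j k : ℚ) : ℝ) * br (k - j) 0) := by
            rw [one_mul]; exact h1
        _ ≤ _ := by
            have e : (be / 4) ^ l * ((l : ℝ) + 1) * (((cc v j k : ℚ) : ℝ) * br (k - j) 0) =
              (((cc v j k : ℚ) : ℝ) * br (k - j) 0) * ((be / 4) ^ l * ((l : ℝ) + 1)) := by ring
            rw [e]
            linarith
  have hsum : ∑ k ∈ range T, ∑ l ∈ range T, ((cc v j k : ℚ) : ℝ) * ((cc u i l : ℚ) : ℝ) *
      (be ^ min k l * br l k) ≤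
      (∑ k ∈ range T, (be / 4) ^ k * ((k : ℝ) + 1)) *
          (∑ l ∈ range T, ((cc u i l : ℚ) : ℝ) * br (l - i) 0) +
        (∑ k ∈ range T, ((cc v j k : ℚ) : ℝ) * br (k - j) 0) *
          (∑ l ∈ range T, (be / 4) ^ l * ((l : ℝ) + 1)) := by
    refine (Finset.sum_le_sum fun k _ => Finset.sum_le_sum fun l _ => hpt k l).trans (le_of_eq ?_)
    simp only [Finset.sum_add_distrib, Finset.sum_mul_sum]
  refine (mul_le_mul_of_nonneg_left hsum (by positivity)).trans ?_
  set H := ∑ k ∈ range T, (be / 4) ^ k * ((k : ℝ) + 1) with hH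
  have hH0 : 0 ≤ H := Finset.sum_nonneg fun k _ => by positivity
  have hHH : 0 ≤ (1 - be / 4) ^ 2 * H := by positivity
  calc (1 - be / 4) ^ 2 * (H * (∑ l ∈ range T, ((cc u i l : ℚ) : ℝ) * br (l - i) 0) +
        (∑ k ∈ range T, ((cc v j k : ℚ) : ℝ) * br (k - j) 0) * H)
      = ((1 - be / 4) ^ 2 * H) * (∑ l ∈ range T, ((cc u i l : ℚ) : ℝ) * br (l - i) 0) +
        ((1 - be / 4) ^ 2 * H) * (∑ k ∈ range T, ((cc v j k : ℚ) : ℝ) * br (k - j) 0) := by ring
    _ ≤ 1 * sx 0 0 u [] + 1 * sx 0 0 v [] := by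
        refine add_le_add ?_ ?_
        · exact mul_le_mul hg hsu hsu0 (by norm_num)
        · exact mul_le_mul hg hsv hsv0 (by norm_num)
    _ = _ := by ring

theorem sx_tendsto (u v : List Bool) (hu : good u = true) (hv : good v = true) (i j : ℕ) :
    Tendsto (fun T => ∑ k ∈ range T, ∑ l ∈ range T, ((cc v j k : ℚ) : ℝ) *
      ((cc u i l : ℚ) : ℝ) * br l k) atTop (𝓝 (sx i j u v)) := by
  have h := sx_hasSum i j u v hu hv
  have ht : Tendsto (fun T => range T ×ˢ range T) atTop (atTop : Filter (Finset (ℕ × ℕ))) := by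
    refine tendsto_atTop_finset_of_monotone ?_ ?_
    · intro a b hab
      exact Finset.product_subset_product (Finset.range_subset_range.mpr hab)
        (Finset.range_subset_range.mpr hab)
    · intro p
      refine ⟨max p.1 p.2 + 1, ?_⟩
      rw [Finset.mem_product, Finset.mem_range, Finset.mem_range]
      omega
  have h2 := Tendsto.comp h ht
  refine h2.congr fun T => ?_
  simp only [Function.comp_apply]
  rw [Finset.sum_product, Finset.sum_comm]
  refine Finset.sum_congr rfl fun k _ => Finset.sum_congr rfl fun l _ => ?_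
  unfold br
  ring

end MZG.TH
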