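import Pool.Agent.Lib.MP_e54452_nt.VV.VK
import Pool.Agent.Lib.MP_e54452_nt.DG.BRb
import Pool.Agent.Lib.MP_e54452_nt.DG.COa
import Pool.Agent.Lib.MP_e54452_nt.DG.FIc
import Pool.Agent.Lib.MP_e54452_nt.DF.CRF
import Pool.Agent.Lib.MP_e54452_nt.DF.N9

/-!
# From the theorem on families to the spaces of multiple zeta values
-/

set_option autoImplicit false

namespace MZG

open Finset Module

theorem fam_GW (s : ℕ) : Fam (GW s) s where
  nil := (mem_GW s []).mpr ⟨rfl, Nat.zero_le _⟩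
  tail := by
    intro a w h
    rw [mem_GW] at h ⊢
    refine ⟨good_tail a w h.1, ?_⟩
    have := h.2
    simp only [List.length_cons] at this
    omega
  good := fun w h => ((mem_GW s w).mp h).1
  len := fun w h => ((mem_GW s w).mp h).2

theorem card_TopF_GW (s : ℕ) (hs : 1 ≤ s) : 2 ^ (s - 1) ≤ (TopF (GW s)).card := by
  obtain ⟨s, rfl⟩ : ∃ r, s = r + 1 := ⟨s - 1, by omega⟩
  have hsub : GW s ⊆ GW (s + 1) := by
    intro w hw
    rw [mem_GW] at hw ⊢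
    exact ⟨hw.1, by omega⟩
  have h1 : GW (s + 1) \ GW s ⊆ TopF (GW (s + 1)) := by
    intro w hw
    rw [Finset.mem_sdiff, mem_GW, mem_GW] at hw
    have hlen : w.length = s + 1 := by
      by_contra h
      exact hw.2 ⟨hw.1.1, by omega⟩
    unfold TopF
    rw [Finset.mem_filter, mem_GW]
    refine ⟨hw.1, ?_⟩
    intro w' hw' hpre
    have h2 := ((mem_GW (s + 1) w').mp hw').2
    exact (hpre.eq_of_length (by have := hpre.length_le; omega)).symm
  have h2 := Finset.card_le_card h1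
  rw [Finset.card_sdiff_of_subset hsub, card_GW, card_GW] at h2
  rw [Nat.add_sub_cancel]
  rw [pow_succ] at h2
  omega

theorem MP_le_MZ (s1 s2 W : ℕ) (h : s1 + s2 ≤ W) : MP (VW (GW s1) (GW s2)) ≤ MZ W := by
  unfold MP MZ
  apply Submodule.span_mono
  rintro x ⟨z, ⟨had, u, hu, v, hv, hz⟩, rfl⟩
  refine ⟨z, had, ?_, rfl⟩
  rw [hz, nx9_length]
  have h1 := ((mem_GW _ _).mp hu).2
  have h2 := ((mem_GW _ _).mp hv).2
  omega

theorem cube_MZ (W : ℕ) :
    2 ^ W ≤ 64 * (4 * W + 5) ^ 2 * (finrank ℚ (MZ W)) ^ 3 := by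
  have hfin := MZ_finite W
  set d := finrank ℚ (MZ W) with hd
  have hd1 : 1 ≤ d := one_le_finrank W
  have hcoef : 4 ≤ 64 * (4 * W + 5) ^ 2 := by
    have : 1 ≤ (4 * W + 5) ^ 2 := Nat.one_le_pow _ _ (by omega)
    omega
  have hdd : d ≤ d ^ 3 := by
    calc d = d * 1 := (mul_one d).symm
      _ ≤ d * d ^ 2 := Nat.mul_le_mul_left d (Nat.one_le_pow _ _ (by omega))
      _ = d ^ 3 := by ring
  rcases Nat.lt_or_ge (2 ^ W) d with h0 | h0
  · calc 2 ^ W ≤ 4 * d := by omega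
      _ ≤ 64 * (4 * W + 5) ^ 2 * d ^ 3 := Nat.mul_le_mul hcoef hdd
  · set q := 2 ^ W / d with hq
    have hq0 : q ≠ 0 := by
      have : 0 < q := Nat.div_pos h0 (by omega)
      omega
    set s := Nat.log 4 q with hs
    have h1 : 4 ^ s ≤ q := Nat.pow_log_le_self 4 hq0
    have h2 : q < 4 ^ (s + 1) := Nat.lt_pow_succ_log_self (by norm_num) q
    have h3 : d * 4 ^ s ≤ 2 ^ W := by
      calc d * 4 ^ s ≤ d * q := Nat.mul_le_mul_left d h1
        _ ≤ 2 ^ W := Nat.mul_div_le _ _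
    have h4 : 2 ^ W < d * 4 ^ (s + 1) := by
      have h5 : 2 ^ W < d * (q + 1) := by
        rw [hq]
        exact Nat.lt_mul_div_succ _ (by omega)
      exact h5.trans_le (Nat.mul_le_mul_left d (by omega))
    rcases Nat.eq_zero_or_pos s with hs0 | hs0
    · rw [hs0] at h4
      calc 2 ^ W ≤ 4 * d := by omega
        _ ≤ 64 * (4 * W + 5) ^ 2 * d ^ 3 := Nat.mul_le_mul hcoef hdd
    · -- s ≤ W
      have h44 : (4 : ℕ) ^ s = 2 ^ s * 2 ^ s := by
        rw [← mul_pow]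
        norm_num
      have hsW : s ≤ W := by
        have h5 : (2 : ℕ) ^ s ≤ 2 ^ W := by
          calc 2 ^ s ≤ 2 ^ s * 2 ^ s := Nat.le_mul_of_pos_left _ (by positivity)
            _ = 4 ^ s := h44.symm
            _ ≤ d * 4 ^ s := Nat.le_mul_of_pos_left _ (by omega)
            _ ≤ 2 ^ W := h3
        exact (Nat.pow_le_pow_iff_right (by norm_num)).mp h5
      have hle : finrank ℚ (MP (VW (GW s) (GW (W - s)))) ≤ d :=
        Submodule.finrank_mono (MP_le_MZ s (W - s) W (by omega))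
      have h6 : finrank ℚ (MP (VW (GW s) (GW (W - s)))) * (GW s).card ≤ (GW (W - s)).card := by
        rw [card_GW, card_GW]
        have h7 : 2 ^ s * (d * 2 ^ s) ≤ 2 ^ s * 2 ^ (W - s) := by
          rw [← pow_add]
          have e : s + (W - s) = W := by omega
          rw [e]
          calc 2 ^ s * (d * 2 ^ s) = d * 4 ^ s := by rw [h44]; ring
            _ ≤ 2 ^ W := h3
        have h8 : d * 2 ^ s ≤ 2 ^ (W - s) := Nat.le_of_mul_le_mul_left h7 (by positivity)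
        exact (Nat.mul_le_mul_right _ hle).trans h8
      have h9 := main3 (fam_GW s) (fam_GW (W - s)) W (by omega) h6
      have h10 : 2 ^ (s - 1) ≤ (8 * W + 10) * d :=
        (card_TopF_GW s hs0).trans (h9.trans (Nat.mul_le_mul_left _ hle))
      have h11 : 2 ^ s ≤ 4 * (4 * W + 5) * d := by
        have e : 2 ^ s = 2 * 2 ^ (s - 1) := by
          obtain ⟨r, hr⟩ : ∃ r, s = r + 1 := ⟨s - 1, by omega⟩
          rw [hr, Nat.add_sub_cancel, pow_succ]
          ring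
        rw [e]
        calc 2 * 2 ^ (s - 1) ≤ 2 * ((8 * W + 10) * d) := Nat.mul_le_mul_left 2 h10
          _ = 4 * (4 * W + 5) * d := by ring
      have h12 : 4 ^ s ≤ (4 * (4 * W + 5) * d) * (4 * (4 * W + 5) * d) := by
        rw [h44]
        exact Nat.mul_le_mul h11 h11
      calc 2 ^ W ≤ d * 4 ^ (s + 1) := h4.le
        _ = 4 * d * 4 ^ s := by rw [pow_succ]; ring
        _ ≤ 4 * d * ((4 * (4 * W + 5) * d) * (4 * (4 * W + 5) * d)) := Nat.mul_le_mul_left _ h12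
        _ = 64 * (4 * W + 5) ^ 2 * d ^ 3 := by ring

theorem cube_ZZ (W : ℕ) :
    2 ^ W ≤ 64 * (4 * W + 5) ^ 2 * (finrank ℚ (ZZ W)) ^ 3 := by
  have := ZZ_finite W
  have h2 : finrank ℚ (MZ W) ≤ finrank ℚ (ZZ W) := Submodule.finrank_mono (MZ_le_ZZ W)
  exact (cube_MZ W).trans (Nat.mul_le_mul_left _ (Nat.pow_le_pow_left h2 3))

/-- the cube form of the growth theorem -/
theorem cube_Z (k : ℕ) (hk : 2 ≤ k) :
    2 ^ k ≤ 4096 * k ^ 5 * (finrank ℚ (MPe54452.Z k)) ^ 3 := by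
  obtain ⟨W, rfl⟩ : ∃ W, k = W + 2 := ⟨k - 2, by omega⟩
  have h1 := cube_ZZ W
  have h2 := ZZ_finrank_le' W
  set z := finrank ℚ (MPe54452.Z (W + 2)) with hz
  calc 2 ^ (W + 2) = 4 * 2 ^ W := by rw [pow_add]; ring
    _ ≤ 4 * (64 * (4 * W + 5) ^ 2 * (finrank ℚ (ZZ W)) ^ 3) := Nat.mul_le_mul_left 4 h1
    _ ≤ 4 * (64 * (4 * W + 5) ^ 2 * ((W + 1) * z) ^ 3) :=
        Nat.mul_le_mul_left 4 (Nat.mul_le_mul_left _ (Nat.pow_le_pow_left h2 3))
    _ = 256 * ((4 * W + 5) ^ 2 * (W + 1) ^ 3) * z ^ 3 := by ring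
    _ ≤ 256 * ((4 * (W + 2)) ^ 2 * (W + 2) ^ 3) * z ^ 3 := by
        refine Nat.mul_le_mul_right _ (Nat.mul_le_mul_left _ (Nat.mul_le_mul ?_ ?_))
        · exact Nat.pow_le_pow_left (by omega) 2
        · exact Nat.pow_le_pow_left (by omega) 3
    _ = 4096 * (W + 2) ^ 5 * z ^ 3 := by ring

/-- the growth theorem -/
theorem growth3_Z (k : ℕ) (hk : 2 ≤ k) :
    (2 : ℝ) ^ ((k : ℝ) / 3) ≤ 16 * (k : ℝ) ^ ((5 : ℝ) / 3) * finrank ℚ (MPe54452.Z k) := by
  have h1 := cube_Z k hk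
  have hk0 : (0 : ℝ) ≤ (k : ℝ) := Nat.cast_nonneg k
  have hR : (0 : ℝ) ≤ 16 * (k : ℝ) ^ ((5 : ℝ) / 3) * finrank ℚ (MPe54452.Z k) := by positivity
  refine le_of_pow_le_pow_left₀ (n := 3) (by norm_num) hR ?_
  have e1 : ((2 : ℝ) ^ ((k : ℝ) / 3)) ^ 3 = 2 ^ k := by
    rw [← Real.rpow_natCast, ← Real.rpow_mul (by norm_num), ← Real.rpow_natCast]
    congr 1
    push_cast
    ring
  have e2 : ((k : ℝ) ^ ((5 : ℝ) / 3)) ^ 3 = (k : ℝ) ^ 5 := by
    rw [← Real.rpow_natCast, ← Real.rpow_mul hk0, ← Real.rpow_natCast]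
    congr 1
    push_cast
    ring
  rw [e1, mul_pow, mul_pow, e2]
  have h2 : ((2 ^ k : ℕ) : ℝ) ≤ ((4096 * k ^ 5 * (finrank ℚ (MPe54452.Z k)) ^ 3 : ℕ) : ℝ) := by
    exact_mod_cast h1
  push_cast at h2
  norm_num
  exact h2

/-- the growth theorem with a rational power of `k` in the denominator -/
theorem growth3_Z' (k : ℕ) (hk : 2 ≤ k) :
    (2 : ℝ) ^ ((k : ℝ) / 3) ≤ 16 * (k : ℝ) ^ 2 * finrank ℚ (MPe54452.Z k) := by
  refine (growth3_Z k hk).trans ?_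
  refine mul_le_mul_of_nonneg_right ?_ (Nat.cast_nonneg _)
  refine mul_le_mul_of_nonneg_left ?_ (by norm_num)
  have hk1 : (1 : ℝ) ≤ (k : ℝ) := by
    have : 1 ≤ k := by omega
    exact_mod_cast this
  calc (k : ℝ) ^ ((5 : ℝ) / 3) ≤ (k : ℝ) ^ (2 : ℝ) :=
        Real.rpow_le_rpow_of_exponent_le hk1 (by norm_num)
    _ = (k : ℝ) ^ 2 := by rw [← Real.rpow_natCast]; norm_num

end MZG
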