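import Pool.Agent.Lib.MP_e54452_nt.TH.DetC
import Pool.Agent.Lib.MP_e54452_nt.DF.Defs
import Pool.Agent.Lib.MP_e54452_nt.DG.C1b

/-!
# Small real determinants, and the limit of the main inequality
-/

set_option autoImplicit false

namespace MZG

open Finset Filter
open scoped Nat Topology

/-- the determinant of a matrix with columns `∫ x^i (1-x)^j L_u L_v` (in the first block) and bounded
columns (second block) -/
theorem nt_small (be : ℝ) (hbe : 1 ≤ be) (h4 : be < 4) {A B : Finset (List Bool)} {s s2 : ℕ}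
    (hA : Fam A s) (hB : Fam B s2) :
    ∃ G : ℝ, 1 ≤ G ∧ ∀ (n : ℕ) (X J : Type) [Fintype X] [DecidableEq X] [Fintype J] [DecidableEq J]
      (xx : X → IdF A n) (rr : X ⊕ J → IdF B n) (N : Matrix (X ⊕ J) (X ⊕ J) ℝ) (E : ℝ), 0 ≤ E →
      (∀ z x, N z (Sum.inl x) = sx (xx x).2 (rr z).2 (xx x).1 (rr z).1) →
      (∀ z j, |N z (Sum.inr j)| ≤ E) →
      |N.det| ≤ ((Fintype.card (X ⊕ J))! : ℝ) * E ^ Fintype.card J * G ^ Fintype.card X *
        TH.dec be (Fintype.card X) := by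
  have hsx : ∀ w, 0 ≤ sx 0 0 w [] := fun w => ENNReal.toReal_nonneg
  have hr : (0 : ℝ) < (1 - be / 4) ^ 2 := by
    have : (0 : ℝ) < 1 - be / 4 := by linarith
    positivity
  refine ⟨1 + (∑ u ∈ A, sx 0 0 u [] + ∑ v ∈ B, sx 0 0 v []) / (1 - be / 4) ^ 2, ?_, ?_⟩
  · have h1 : 0 ≤ ∑ u ∈ A, sx 0 0 u [] := Finset.sum_nonneg fun u _ => hsx u
    have h2 : 0 ≤ ∑ u ∈ B, sx 0 0 u [] := Finset.sum_nonneg fun u _ => hsx u
    have h3 : 0 ≤ (∑ u ∈ A, sx 0 0 u [] + ∑ v ∈ B, sx 0 0 v []) / (1 - be / 4) ^ 2 := by positivity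
    linarith
  · intro n X J _ _ _ _ xx rr N E hE hN hJ
    set G := 1 + (∑ u ∈ A, sx 0 0 u [] + ∑ v ∈ B, sx 0 0 v []) / (1 - be / 4) ^ 2 with hG
    have hGb : ∀ u ∈ A, ∀ v ∈ B, sx 0 0 u [] + sx 0 0 v [] ≤ (1 - be / 4) ^ 2 * G := by
      intro u hu v hv
      have h1 : sx 0 0 u [] ≤ ∑ u ∈ A, sx 0 0 u [] :=
        Finset.single_le_sum (f := fun u => sx 0 0 u []) (fun u _ => hsx u) hu
      have h2 : sx 0 0 v [] ≤ ∑ u ∈ B, sx 0 0 u [] :=
        Finset.single_le_sum (f := fun u => sx 0 0 u []) (fun u _ => hsx u) hv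
      have e : (1 - be / 4) ^ 2 * G = (1 - be / 4) ^ 2 +
          (∑ u ∈ A, sx 0 0 u [] + ∑ v ∈ B, sx 0 0 v []) := by
        rw [hG, mul_add, mul_one, mul_div_cancel₀ _ hr.ne']
      rw [e]
      linarith
    have hmin : ∀ f : X → X ⊕ J, |(Matrix.of fun x' x => N (f x') (Sum.inl x)).det| ≤
        TH.dec be (Fintype.card X) * (((Fintype.card X)! : ℝ) * G ^ Fintype.card X) := by
      intro f
      refine TH.small_minor be hbe
        (fun x' k => ((cc (rr (f x')).1.1 (rr (f x')).2 k : ℚ) : ℝ))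
        (fun x l => ((cc (xx x).1.1 (xx x).2 l : ℚ) : ℝ)) (fun k l => TH.br l k)
        (fun x k => SZb_cc_nonneg _ _ _) (fun x k => SZb_cc_nonneg _ _ _)
        (fun k l => TH.br_nonneg _ _) G ?_ _ ?_
      · intro x y T
        refine le_of_mul_le_mul_left ?_ hr
        refine (TH.G_bound be (by linarith) h4 (xx y).1.1 (rr (f x)).1.1 (hA.good _ (xx y).1.2)
          (hB.good _ (rr (f x)).1.2) (xx y).2 (rr (f x)).2 T).trans ?_
        exact hGb _ (xx y).1.2 _ (rr (f x)).1.2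
      · intro x y
        rw [Matrix.of_apply, hN]
        exact TH.sx_tendsto (xx y).1.1 (rr (f x)).1.1 (hA.good _ (xx y).1.2)
          (hB.good _ (rr (f x)).1.2) (xx y).2 (rr (f x)).2
    have h := TH.det_block_bound N _ E hmin hJ
    have hf : (0 : ℝ) < ((Fintype.card X)! : ℝ) := by exact_mod_cast Nat.factorial_pos _
    refine le_of_mul_le_mul_left ?_ hf
    refine h.trans (le_of_eq ?_)
    ring

theorem li_div (d m M n l2 l4 lb lq lC lG lD lf U V : ℝ) (hd : 0 ≤ d) (hm : 0 < m) (hM : 0 ≤ M)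
    (h2 : 0 ≤ d * m * (lq + (M + 1) * lD) + lf + d * m * (n * l2 + M * l4 + lC) + m * lG +
      -(lb / 4 * (m * m - 2 * m)))
    (hU : lD ≤ U) (hV : lf ≤ d * m * V) :
    lb / 4 * (m - 2) ≤ d * (lq + (M + 1) * U + V + (n * l2 + M * l4 + lC)) + lG := by
  refine le_of_mul_le_mul_right ?_ hm
  have h1 : 0 ≤ d * m * (M + 1) * (U - lD) := by
    have : 0 ≤ U - lD := by linarith
    positivity
  have e1 : (d * (lq + (M + 1) * U + V + (n * l2 + M * l4 + lC)) + lG) * m =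
      d * m * (lq + (M + 1) * lD) + d * m * (M + 1) * (U - lD) + d * m * V +
        d * m * (n * l2 + M * l4 + lC) + m * lG := by ring
  have e2 : lb / 4 * (m - 2) * m = lb / 4 * (m * m - 2 * m) := by ring
  rw [e1, e2]
  linarith

theorem li_end (t d M c0 k a l2 l4 lb lq lC lG ε le δ : ℝ) (hc : 0 ≤ c0) (hk : 0 ≤ k)
    (hδ0 : 0 < δ) (h13 : 0 ≤ t * lb / 4) (hδ : δ = t * lb / 4 - d * (2 * a * (M + 1) + l2))
    (hε : ε * (d * d * t) ≤ δ / 2)
    (h3 : lb / 4 * (t * (k + 1) - 2) ≤ d * (lq + (M + 1) * (a * (2 * (c0 + k) + 1)) +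
      (ε * (d * (t * (k + 1)) + 1) + le) + ((c0 + k) * l2 + M * l4 + lC)) + lG) :
    δ / 2 * (c0 + k) ≤ d * (lq + a * (M + 1) + M * l4 + lC + ε * (d * t + 1) + le) + lG +
      lb / 4 * (t * c0 + 2) := by
  have h8 : ε * (d * d * t) * k ≤ δ / 2 * k := mul_le_mul_of_nonneg_right hε hk
  have h9 : 0 ≤ δ / 2 * c0 := by positivity
  have h7 : d * (ε * (d * (t * (k + 1)) + 1)) = ε * (d * d * t) * k + d * (ε * (d * t + 1)) := by ring
  have h10 : δ * (c0 + k) = (t * lb / 4 - d * (2 * a * (M + 1) + l2)) * (c0 + k) := by rw [hδ]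
  have h11 : d * (lq + (M + 1) * (a * (2 * (c0 + k) + 1)) +
      (ε * (d * (t * (k + 1)) + 1) + le) + ((c0 + k) * l2 + M * l4 + lC)) + lG =
      d * (2 * a * (M + 1) + l2) * (c0 + k) + d * (lq + a * (M + 1) + M * l4 + lC + le) +
        d * (ε * (d * (t * (k + 1)) + 1)) + lG := by ring
  rw [h11, h7] at h3
  have h12 : lb / 4 * (t * (k + 1) - 2) = t * lb / 4 * (c0 + k) - lb / 4 * (t * c0 + 2) + t * lb / 4 := by
    ring
  rw [h12] at h3
  have h14 : δ * (c0 + k) = t * lb / 4 * (c0 + k) - d * (2 * a * (M + 1) + l2) * (c0 + k) := by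
    rw [h10]; ring
  have h15 : δ / 2 * (c0 + k) = δ * (c0 + k) - δ / 2 * c0 - δ / 2 * k := by ring
  have h16 : d * (lq + a * (M + 1) + M * l4 + lC + ε * (d * t + 1) + le) =
      d * (lq + a * (M + 1) + M * l4 + lC + le) + d * (ε * (d * t + 1)) := by ring
  rw [h16, h15]
  linarith

theorem dd_eps (ε : ℝ) (hε : 0 < ε) : ∃ N0 : ℕ, ∀ N ≥ N0,
    Real.log (dd N : ℝ) ≤ (Real.log 4 + ε) * N := by
  have h1 := isLittleO_log_rpow_atTop (r := 1 / 2) (by norm_num)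
  have h2 := h1.def (c := ε / 2) (by positivity)
  obtain ⟨x0, hx0⟩ := Filter.eventually_atTop.mp h2
  obtain ⟨N0, hN0⟩ := exists_nat_ge (max x0 1)
  refine ⟨N0, fun N hN => ?_⟩
  have hNR : (N0 : ℝ) ≤ N := by exact_mod_cast hN
  have hx : x0 ≤ (N : ℝ) := (le_max_left _ _).trans (hN0.trans hNR)
  have hN1 : (1 : ℝ) ≤ (N : ℝ) := (le_max_right _ _).trans (hN0.trans hNR)
  have h3 := hx0 N hx
  have hlog : 0 ≤ Real.log (N : ℝ) := Real.log_nonneg hN1
  rw [Real.norm_of_nonneg hlog, Real.norm_of_nonneg (by positivity), ← Real.sqrt_eq_rpow] at h3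
  have h4 : Chebyshev.psi (N : ℝ) = Real.log (dd N) := Chebyshev.psi_eq_log_lcmUpto N
  have h5 := Chebyshev.psi_le hN1
  rw [h4] at h5
  have h6 : 2 * Real.sqrt N * Real.log N ≤ ε * N := by
    calc 2 * Real.sqrt N * Real.log N ≤ 2 * Real.sqrt N * (ε / 2 * Real.sqrt N) :=
          mul_le_mul_of_nonneg_left h3 (by positivity)
      _ = ε * (Real.sqrt N * Real.sqrt N) := by ring
      _ = ε * N := by rw [Real.mul_self_sqrt (by linarith)]
  calc Real.log (dd N : ℝ) ≤ Real.log 4 * N + 2 * Real.sqrt N * Real.log N := h5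
    _ ≤ Real.log 4 * N + ε * N := by linarith
    _ = _ := by ring

/-- the limit of the main inequality, `β` fixed -/
theorem limit_be (be : ℝ) (hbe : 1 ≤ be) (t d M c0 : ℕ) (q0 C0 G : ℝ) (hq : 1 ≤ q0) (hC : 1 ≤ C0)
    (hG : 1 ≤ G)
    (h : ∀ n ≥ c0, 1 ≤ (q0 * (dd (2 * n + 1) : ℝ) ^ (M + 1)) ^ (d * (t * (n + 1 - c0))) *
      ((d * (t * (n + 1 - c0)))! : ℝ) * (2 ^ n * 4 ^ M * C0) ^ (d * (t * (n + 1 - c0))) *
      G ^ (t * (n + 1 - c0)) * TH.dec be (t * (n + 1 - c0))) :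
    (t : ℝ) * Real.log be / 4 ≤ d * (2 * Real.log 4 * ((M : ℝ) + 1) + Real.log 2) := by
  by_contra hcon
  push Not at hcon
  have hl2 : 0 < Real.log 2 := Real.log_pos (by norm_num)
  have hl4 : 0 < Real.log 4 := Real.log_pos (by norm_num)
  have hlb : 0 ≤ Real.log be := Real.log_nonneg hbe
  have hdR : (0 : ℝ) ≤ d := Nat.cast_nonneg d
  have hMR : (0 : ℝ) ≤ M := Nat.cast_nonneg M
  have ht : 1 ≤ t := by
    by_contra h0
    have h1 : t = 0 := by omega
    rw [h1] at hcon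
    have : (0 : ℝ) ≤ d * (2 * Real.log 4 * ((M : ℝ) + 1) + Real.log 2) := by positivity
    simp at hcon
    linarith
  have htR : (1 : ℝ) ≤ t := by exact_mod_cast ht
  -- the first small parameter
  obtain ⟨ε', hε'0, hε'⟩ : ∃ ε' : ℝ, 0 < ε' ∧
      d * (2 * (Real.log 4 + ε') * ((M : ℝ) + 1) + Real.log 2) < t * Real.log be / 4 := by
    set δ0 : ℝ := t * Real.log be / 4 - d * (2 * Real.log 4 * ((M : ℝ) + 1) + Real.log 2) with hδ0
    have hpos : 0 < δ0 := by rw [hδ0]; linarith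
    have hden : (0 : ℝ) < 2 * (d : ℝ) * ((M : ℝ) + 1) + 1 := by positivity
    refine ⟨δ0 / 2 / (2 * (d : ℝ) * ((M : ℝ) + 1) + 1), by positivity, ?_⟩
    have h1 : (2 * (d : ℝ) * ((M : ℝ) + 1)) * (δ0 / 2 / (2 * (d : ℝ) * ((M : ℝ) + 1) + 1)) ≤ δ0 / 2 := by
      rw [mul_div_assoc', div_le_iff₀ hden]
      nlinarith
    have h2 : d * (2 * (Real.log 4 + δ0 / 2 / (2 * (d : ℝ) * ((M : ℝ) + 1) + 1)) * ((M : ℝ) + 1) +
        Real.log 2) = d * (2 * Real.log 4 * ((M : ℝ) + 1) + Real.log 2) +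
        (2 * (d : ℝ) * ((M : ℝ) + 1)) * (δ0 / 2 / (2 * (d : ℝ) * ((M : ℝ) + 1) + 1)) := by ring
    rw [h2]
    rw [hδ0] at h1 hpos ⊢
    linarith
  set a : ℝ := Real.log 4 + ε' with ha
  obtain ⟨N0, hN0⟩ := dd_eps ε' hε'0
  set δ : ℝ := t * Real.log be / 4 - d * (2 * a * ((M : ℝ) + 1) + Real.log 2) with hδ
  have hδ0 : 0 < δ := by rw [hδ]; linarith
  set ε : ℝ := δ / (2 * ((d : ℝ) * d * t + 1)) with hε
  have hden : (0 : ℝ) < 2 * ((d : ℝ) * d * t + 1) := by positivity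
  have hε0 : 0 < ε := div_pos hδ0 hden
  -- constants
  set Q : ℝ := (d : ℝ) * (Real.log q0 + a * ((M : ℝ) + 1) + M * Real.log 4 + Real.log C0 +
    ε * (d * t + 1) + Real.log (1 / ε)) + Real.log G + Real.log be / 4 * (t * c0 + 2) with hQ
  have key : ∀ n : ℕ, c0 ≤ n → N0 ≤ n → δ / 2 * (n : ℝ) ≤ Q := by
    intro n hn hnN
    have h1 := h n hn
    have hlD' := hN0 (2 * n + 1) (by omega)
    obtain ⟨k, rfl⟩ := Nat.exists_eq_add_of_le hn
    have hk : c0 + k + 1 - c0 = k + 1 := by omega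
    rw [hk] at h1
    set m := t * (k + 1) with hm
    have hm1 : 1 ≤ m := Nat.mul_pos (by omega) (by omega)
    have hmR : (1 : ℝ) ≤ (m : ℝ) := by exact_mod_cast hm1
    have hD1 : (1 : ℝ) ≤ (dd (2 * (c0 + k) + 1) : ℝ) := by exact_mod_cast dd_pos _
    have hq0 : (0 : ℝ) < q0 := by linarith
    have hC0 : (0 : ℝ) < C0 := by linarith
    have hG0 : (0 : ℝ) < G := by linarith
    have hD0 : (0 : ℝ) < (dd (2 * (c0 + k) + 1) : ℝ) := by linarith
    have hf0 : (0 : ℝ) < ((d * m)! : ℝ) := by exact_mod_cast Nat.factorial_pos _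
    have h2 := Real.log_nonneg h1
    have hx1 : (q0 * (dd (2 * (c0 + k) + 1) : ℝ) ^ (M + 1)) ^ (d * m) ≠ 0 := by positivity
    have hx2 : ((d * m)! : ℝ) ≠ 0 := hf0.ne'
    have hx3 : ((2 : ℝ) ^ (c0 + k) * 4 ^ M * C0) ^ (d * m) ≠ 0 := by positivity
    have hx4 : G ^ m ≠ 0 := by positivity
    have hx5 : TH.dec be m ≠ 0 := (TH.dec_pos be m).ne'
    rw [Real.log_mul (mul_ne_zero (mul_ne_zero (mul_ne_zero hx1 hx2) hx3) hx4) hx5,
      Real.log_mul (mul_ne_zero (mul_ne_zero hx1 hx2) hx3) hx4,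
      Real.log_mul (mul_ne_zero hx1 hx2) hx3, Real.log_mul hx1 hx2,
      Real.log_pow, Real.log_pow, Real.log_pow, TH.dec, Real.log_exp,
      Real.log_mul hq0.ne' (by positivity), Real.log_pow,
      Real.log_mul (by positivity) hC0.ne', Real.log_mul (by positivity) (by positivity),
      Real.log_pow, Real.log_pow] at h2
    -- bounds for the logarithms
    have hlD : Real.log (dd (2 * (c0 + k) + 1) : ℝ) ≤ a * (2 * ((c0 + k : ℕ) : ℝ) + 1) := by
      refine hlD'.trans (le_of_eq ?_)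
      push_cast
      ring
    have hfac : Real.log ((d * m)! : ℝ) ≤ ((d * m : ℕ) : ℝ) * (ε * (d * m + 1) + Real.log (1 / ε)) := by
      have h3 : ((d * m)! : ℝ) ≤ ((d * m + 1 : ℕ) : ℝ) ^ (d * m) := by
        have h4 : (d * m)! ≤ (d * m + 1) ^ (d * m) :=
          (Nat.factorial_le_pow (d * m)).trans (Nat.pow_le_pow_left (by omega) _)
        exact_mod_cast h4
      have h5 := Real.log_le_log hf0 h3
      rw [Real.log_pow] at h5
      refine h5.trans (mul_le_mul_of_nonneg_left ?_ (Nat.cast_nonneg _))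
      have h6 : (0 : ℝ) < ε * ((d * m + 1 : ℕ) : ℝ) := by positivity
      have h7 := Real.log_le_sub_one_of_pos h6
      rw [Real.log_mul hε0.ne' (by positivity)] at h7
      rw [Real.log_div one_ne_zero hε0.ne', Real.log_one]
      push_cast at h7 ⊢
      linarith
    have hmm : ((m : ℕ) : ℝ) = t * ((k : ℝ) + 1) := by rw [hm]; push_cast; ring
    -- divide by m
    have hm0 : (0 : ℝ) < (m : ℝ) := by linarith
    have h3 := li_div (d : ℝ) (m : ℝ) (M : ℝ) ((c0 + k : ℕ) : ℝ) (Real.log 2) (Real.log 4)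
      (Real.log be) (Real.log q0) (Real.log C0) (Real.log G) _ _ _ _ hdR hm0 hMR (by
        have h5 : ((d * m : ℕ) : ℝ) = (d : ℝ) * m := by push_cast; ring
        have h6 : ((M + 1 : ℕ) : ℝ) = (M : ℝ) + 1 := by push_cast; ring
        rw [h5, h6] at h2
        exact h2) hlD (by
        have h5 : ((d * m : ℕ) : ℝ) = (d : ℝ) * m := by push_cast; ring
        rw [h5] at hfac
        exact hfac)
    have h6 : ε * ((d : ℝ) * d * t) ≤ δ / 2 := by
      rw [hε, div_mul_eq_mul_div, div_le_div_iff₀ hden (by norm_num)]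
      have : (0 : ℝ) ≤ (d : ℝ) * d * t := by positivity
      nlinarith
    have hcc : ((c0 + k : ℕ) : ℝ) = (c0 : ℝ) + k := by push_cast; ring
    rw [hmm, hcc] at h3
    rw [hcc, hQ]
    exact li_end t d M c0 k a _ _ _ _ _ _ ε _ δ (Nat.cast_nonneg c0) (Nat.cast_nonneg k) hδ0
      (by positivity) hδ h6 h3
  -- contradiction
  obtain ⟨n, hn⟩ := exists_nat_gt (2 * Q / δ)
  have h1 := key (n + c0 + N0) (by omega) (by omega)
  have h2 : 2 * Q < n * δ := by rwa [div_lt_iff₀ hδ0] at hn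
  push_cast at h1
  have hc : (0 : ℝ) ≤ c0 := Nat.cast_nonneg c0
  have hN : (0 : ℝ) ≤ N0 := Nat.cast_nonneg N0
  have h3 : 0 ≤ δ / 2 * (c0 + N0 : ℝ) := by positivity
  nlinarith

/-- the limit of the main inequality -/
theorem limit_all (t d M c0 : ℕ) (q0 C0 : ℝ) (hq : 1 ≤ q0) (hC : 1 ≤ C0)
    (h : ∀ be : ℝ, 1 ≤ be → be < 4 → ∃ G : ℝ, 1 ≤ G ∧ ∀ n ≥ c0,
      1 ≤ (q0 * (dd (2 * n + 1) : ℝ) ^ (M + 1)) ^ (d * (t * (n + 1 - c0))) *
      ((d * (t * (n + 1 - c0)))! : ℝ) * (2 ^ n * 4 ^ M * C0) ^ (d * (t * (n + 1 - c0))) *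
      G ^ (t * (n + 1 - c0)) * TH.dec be (t * (n + 1 - c0))) :
    t ≤ (8 * M + 10) * d := by
  have hl2 : 0 < Real.log 2 := Real.log_pos (by norm_num)
  have hlog4 : Real.log 4 = 2 * Real.log 2 := by
    rw [show (4 : ℝ) = 2 ^ 2 by norm_num, Real.log_pow]
    norm_num
  rcases Nat.eq_zero_or_pos t with ht | ht
  · rw [ht]; exact Nat.zero_le _
  have htR : (0 : ℝ) < t := by exact_mod_cast ht
  set R : ℝ := d * (2 * Real.log 4 * ((M : ℝ) + 1) + Real.log 2) with hR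
  have h1 : (t : ℝ) * Real.log 4 / 4 ≤ R := by
    by_contra hcon
    push Not at hcon
    set η : ℝ := min 1 ((t * Real.log 4 / 4 - R) / t) with hη
    have hη0 : 0 < η := lt_min one_pos (div_pos (by linarith) htR)
    have hη1 : η ≤ 1 := min_le_left _ _
    have hη2 : η * t ≤ t * Real.log 4 / 4 - R := by
      have := min_le_right 1 ((t * Real.log 4 / 4 - R) / t)
      rw [← hη, le_div_iff₀ htR] at this
      exact this
    have hlog : 1 ≤ Real.log 4 := by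
      rw [hlog4]
      have := Real.log_two_gt_d9
      linarith
    have hbe1 : 1 ≤ Real.exp (Real.log 4 - η) := Real.one_le_exp (by linarith)
    have hbe4 : Real.exp (Real.log 4 - η) < 4 := by
      calc Real.exp (Real.log 4 - η) < Real.exp (Real.log 4) := Real.exp_lt_exp.mpr (by linarith)
        _ = 4 := Real.exp_log (by norm_num)
    obtain ⟨G, hG, hn⟩ := h _ hbe1 hbe4
    have h2 := limit_be _ hbe1 t d M c0 q0 C0 G hq hC hG hn
    rw [Real.log_exp] at h2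
    have h3 : (t : ℝ) * (Real.log 4 - η) / 4 = t * Real.log 4 / 4 - η * t / 4 := by ring
    rw [h3, ← hR] at h2
    have h4 : 0 < η * t := mul_pos hη0 htR
    linarith
  have h2 : (t : ℝ) ≤ ((8 * M + 10) * d : ℕ) := by
    refine le_of_mul_le_mul_right ?_ hl2
    rw [hR, hlog4] at h1
    push_cast
    nlinarith
  exact_mod_cast h2

end MZG
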